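import Pool.Agent.H18.Ub.VGen

/-!
# Module VDim (UB): the general dimension as a function
-/

namespace Pool.Agent.H18.Fat

/-- The dimension of `V_d(Γ)` for general points, that is, the smallest dimension. -/
noncomputable def generalDim (r d : ℕ) {k : ℕ} (m : Fin k → ℕ) : ℕ :=
  sInf {x : ℕ | ∃ p : Fin k → Fin (r + 1) → ℂ, Module.finrank ℂ (fatForms r d p m) = x}

end Pool.Agent.H18.Fat

namespace Pool.Agent.H18.Ub

open Finset Pool.Agent.H18.Ex Pool.Agent.H18.Cub Pool.Agent.H18.Pr Pool.Agent.H18.Ua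
  Pool.Agent.H18.Fat

/-- Sanity check: the dimension of `V_d(Γ)` for general points. -/
theorem generalDim_spec (r d : ℕ) {k : ℕ} (m : Fin k → ℕ) :
    ForGeneralPoints r k fun p => Module.finrank ℂ (fatForms r d p m) = generalDim r d m := by
  have hne : {x : ℕ | ∃ p : Fin k → Fin (r + 1) → ℂ,
      Module.finrank ℂ (fatForms r d p m) = x}.Nonempty := ⟨_, fun _ _ => 0, rfl⟩
  obtain ⟨p₀, hp₀⟩ := Nat.sInf_mem hne
  refine (general_finrank_le d p₀ m).mono fun p hp => le_antisymm ?_ ?_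
  · rw [hp₀] at hp
    exact hp
  · exact Nat.sInf_le ⟨p, rfl⟩

/-- The failing tuples, from the dimension after a Cremona reduction. -/
theorem final_of_dim {r k d d' : ℕ} (hr : 1 ≤ r) {m m' : Fin k → ℕ} (hcr : Cremona r d m d' m')
    (v' : ℤ) (h' : ForGeneralPoints r k fun p =>
      (Module.finrank ℂ (fatForms r d' p m') : ℤ) = max 0 v') :
    ForGeneralPoints r k fun p =>
      (Module.finrank ℂ (fatForms r d p m) : ℤ) = max 0 v' ∧
      (¬ ImposesMaximalConditions r d p m ↔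
        0 < v' ∧ ((d + r).choose r : ℤ) - ∑ i, ((m i + r - 1).choose r : ℤ) < v') := by
  obtain ⟨v, hv⟩ : ∃ v : ℕ, (v : ℤ) = max 0 v' :=
    ⟨(max 0 v').toNat, Int.toNat_of_nonneg (le_max_left _ _)⟩
  have h3 : ForGeneralPoints r k fun p => Module.finrank ℂ (fatForms r d' p m') = v := by
    refine h'.mono fun p hp => ?_
    have h4 : ((Module.finrank ℂ (fatForms r d' p m') : ℕ) : ℤ) = v := by
      rw [hp, hv]
    exact_mod_cast h4
  have h5 := (hcr.general v).2 h3
  refine (h5.and (general_ne_zero r k)).mono fun p hp => ?_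
  obtain ⟨hp, hp0⟩ := hp
  have hge := finrank_fatForms_ge (d := d) hr hp0 m
  have h7 : (Module.finrank ℂ (fatForms r d p m) : ℤ) = max 0 v' := by
    rw [hp, hv]
  refine ⟨h7, ?_⟩
  rw [h7] at hge
  have h8 : ImposesMaximalConditions r d p m ↔ (Module.finrank ℂ (fatForms r d p m) : ℤ) =
      max 0 (((d + r).choose r : ℤ) - ∑ i, ((m i + r - 1).choose r : ℤ)) := Iff.rfl
  rw [h8, h7]
  generalize ((d + r).choose r : ℤ) - ∑ i, ((m i + r - 1).choose r : ℤ) = v₀ at hge ⊢
  rcases le_total 0 v' with h9 | h9 <;> rcases le_total 0 v₀ with h10 | h10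
  · rw [max_eq_right h9] at hge ⊢
    rw [max_eq_right h10]
    omega
  · rw [max_eq_right h9] at hge ⊢
    rw [max_eq_left h10]
    omega
  · rw [max_eq_left h9] at hge ⊢
    rw [max_eq_right h10]
    omega
  · rw [max_eq_left h9] at hge ⊢
    rw [max_eq_left h10]
    omega

/-- The case of slow growth. -/
theorem dim_of_slow (r : ℕ) (hr : 2 ≤ r) (M : ℕ) (hM : 1 ≤ M) (k d : ℕ) (m : Fin k → ℕ)
    (J : Finset (Fin k)) (hJ : ∀ i, i ∉ J → m i ≤ M) (h : ℕ → ℕ)
    (hh : ∀ j, h j = generalDim r j fun i => if i ∈ J then m i else 0)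
    (hslow : 16 * M ^ 2 * (M + r - 1).choose r * ((h d - h (d - 1)) -
      (h (d - 66 * M ^ 3 * (M + r - 1).choose r) -
        h (d - 66 * M ^ 3 * (M + r - 1).choose r - 1))) ≤ h d - h (d - 1)) :
    ForGeneralPoints r k fun p => (Module.finrank ℂ (fatForms r d p m) : ℤ) =
      max 0 ((h d : ℤ) - ∑ i ∈ univ.filter (fun i => i ∉ J), ((m i + r - 1).choose r : ℤ)) := by
  refine general_dim r hr M hM k d m J hJ h (fun j _ => ?_) _ _ le_rfl le_rfl ?_
  · rw [hh j]
    exact generalDim_spec r j _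
  · rw [Nat.mul_sub, Nat.sub_le_iff_le_add'] at hslow
    exact hslow

end Pool.Agent.H18.Ub
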