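import Pool.Agent.H18.Ua.UDefs

/-!
# Project UB: small multiplicities and a given scheme, incomplete traces

As in project UA, but the traces are only killed by points of multiplicities at most `M` together with
at least `w` simple points.
-/

namespace Pool.Agent.H18.Ub

open Finset Pool.Agent.H18.Ex Pool.Agent.H18.Cub Pool.Agent.H18.Pr Pool.Agent.H18.Ua

section

variable {Λ : Type} [Fintype Λ] [DecidableEq Λ] {n : ℕ}

/-- The trace is killed by points of multiplicities at most `M` and at least `w` simple points as soon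
as the lengths suffice. -/
def Gw (Y : SysN Λ n) (M w : ℕ) (l : Λ) (a : Λ → ℕ) : Prop :=
  ∀ S : Multiset ℕ, (∀ m ∈ S, m ≤ M) → ∀ x : ℕ, w ≤ x → Y.F l a ≤ (S.map (ell n)).sum + x →
    Y.tr l a (S + Multiset.replicate x 1)

end

/-- The number of free points needed for a step. -/
def g0w (n M w : ℕ) : ℕ := M * (ell n M + w)

/-- The bound for the traces of the forced conditions after a step. -/
def nphiw (n M w f : ℕ) : ℕ := (M - 1) * f / M + (ell n M + w) * ell n M

/-- The hyperplane section may grow by the factor `1 + 1 / EV`. -/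
def EV (n M : ℕ) : ℕ := 8 * M * (M + 1) * ell n M

section

variable {Λ : Type} [Fintype Λ] [DecidableEq Λ] {n : ℕ}

/-- The numerical properties of a Horace system below the state `N`. -/
structure NumV (Y : SysN Λ n) (M t w : ℕ) (N : Λ → ℕ) : Prop where
  hn : 1 ≤ n
  hM : 1 ≤ M
  ht : TU n M ≤ t
  hw : EV n M * w ≤ t
  hq : Fintype.card Λ = qU n M
  hN : ∀ i, 2 * M + 2 ≤ N i
  Fle : ∀ a l, RegU M N a → Y.F l a ≤ t
  leF : ∀ a l, RegU M N a → (EV n M - 1) * t ≤ EV n M * Y.F l a
  gd : ∀ a l, RegU M N a → Gw Y M w l a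
  leR : ∀ a, RegU M N a → ((4 * M * qU n M * t : ℕ) : ℤ) ≤ Y.R a
  full : ∀ a, RegU M N a → FullN Y a
  kill : ∀ a, RegU M N a → ∀ (S : Multiset (Kind Λ)) (x s : ℕ) (G : Multiset ℕ),
    (∀ m ∈ G, 1 ≤ m ∧ m ≤ M) → Y.K a (S + Multiset.replicate x (Kind.free 1)) →
    x ≤ (G.map (ell (n + 1))).sum + s →
    (M * t ≤ s ∨ x + ell (n + 1) M * (M * t) ≤ (G.map (ell (n + 1))).sum + s) →
    Y.K a (S + G.map Kind.free + Multiset.replicate s (Kind.free 1))

end

end Pool.Agent.H18.Ub
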