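import Pool.Agent.H18.Ub.VMain
import Pool.Agent.H18.Ua.UFat
import Pool.Agent.H18.Pr.CremR

/-!
# Module VFinal (UB): the theorem for general points
-/

namespace Pool.Agent.H18.Ub

open Finset Pool.Agent.H18.Ex Pool.Agent.H18.Cub Pool.Agent.H18.Pr Pool.Agent.H18.Ua
  Pool.Agent.H18.Fat

/-! ### Strict growth -/

theorem PFam.strict {n : ℕ} (A : PFam n) (δ : ℕ) (h : 1 ≤ A.h δ) : A.h δ + 1 ≤ A.h (δ + 1) := by
  by_contra hcon
  have h1 := A.mono (Nat.le_succ δ)
  have h2 : A.W δ = A.W (δ + 1) := Submodule.eq_of_le_of_finrank_le h1 (by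
    change A.h (δ + 1) ≤ A.h δ
    omega)
  obtain ⟨F, hF, hF0⟩ : ∃ F ∈ A.W δ, F ≠ 0 := by
    refine Submodule.exists_mem_ne_zero_of_ne_bot fun hb => ?_
    unfold PFam.h at h
    rw [hb, finrank_bot] at h
    omega
  have h3 : ∀ j : ℕ, MvPolynomial.X 0 ^ j * F ∈ A.W δ := by
    intro j
    induction j with
    | zero => simpa using hF
    | succ j ih =>
      have h4 := A.mul δ 1 _ ih (MvPolynomial.X 0) (by rw [MvPolynomial.totalDegree_X])
      rw [h2, pow_succ', mul_assoc]
      exact h4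
  have h4 := A.deg δ _ (h3 (δ + 1))
  rw [MvPolynomial.totalDegree_mul_of_isDomain
    (pow_ne_zero _ (MvPolynomial.X_ne_zero _)) hF0, MvPolynomial.totalDegree_X_pow] at h4
  omega

theorem fam_strict {n : ℕ} (A : Fam n) (δ : ℕ) (h : 1 ≤ A.h δ) : A.h δ + 1 ≤ A.h (δ + 1) :=
  PFam.strict ⟨A.W, A.deg, A.mul⟩ δ h

theorem tau_strict {n : ℕ} (A : Fam (n + 1)) (δ : ℕ) (hδ : 1 ≤ δ) (h : A.h (δ - 1) + 1 ≤ A.h δ) :
    A.h δ + A.h δ + 1 ≤ A.h (δ + 1) + A.h (δ - 1) := by
  obtain ⟨v, hv, -⟩ := A.exists_good ∅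
  have h1 := traceP_h A v hv δ hδ
  have h2 := traceP_h A v hv (δ + 1) (by omega)
  rw [Nat.add_sub_cancel] at h2
  have h3 := (traceP A v).strict δ (by omega)
  omega

theorem tau_grow {n : ℕ} (A : Fam (n + 1)) (δ : ℕ) (hδ : 1 ≤ δ) (h : A.h (δ - 1) + 1 ≤ A.h δ)
    (j : ℕ) : A.h δ - A.h (δ - 1) + j ≤ A.h (δ + j) - A.h (δ + j - 1) := by
  induction j with
  | zero => exact le_rfl
  | succ j ih =>
    have h1 := tau_strict A (δ + j) (by omega) (by omega)
    have h2 : δ + (j + 1) - 1 = δ + j := by omega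
    have h3 : δ + (j + 1) = δ + j + 1 := by omega
    rw [h2, h3]
    omega

/-- Spaces of dimension at most `1`. -/
theorem fk_of_le_one {n : ℕ} (W : Submodule ℂ (MvPolynomial (Fin (n + 1)) ℂ))
    [FiniteDimensional ℂ W] (h1 : Module.finrank ℂ W ≤ 1) (G : Multiset ℕ)
    (hG : Module.finrank ℂ W ≤ (G.map (ell (n + 1))).sum) : Fk W G := by
  have g : Lines Empty (Fin (n + 1)) := ⟨Empty.elim, Empty.elim⟩
  rw [Fk_iff g]
  rcases Nat.eq_zero_or_pos (Module.finrank ℂ W) with h0 | h0
  · have h2 := gmp_simple g W 0 (by omega)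
    exact GMP.mono (Multiset.zero_le _) h2
  · obtain ⟨m, hm, hm1⟩ : ∃ m ∈ G, 1 ≤ m := by
      by_contra hcon
      push Not at hcon
      have h2 : (G.map (ell (n + 1))).sum = 0 := by
        apply Multiset.sum_eq_zero
        intro x hx
        obtain ⟨m, hm, rfl⟩ := Multiset.mem_map.1 hx
        have h3 := hcon m hm
        have h4 : m = 0 := by omega
        rw [h4]
        exact ell_zero (by omega)
      omega
    have h2 := gmp_simple g W 1 h1
    have h3 := GMP.free_mono ({m} : Multiset ℕ) (fun m' hm' => by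
      rw [Multiset.mem_singleton] at hm'
      omega) (0 : Multiset (Kind Empty)) (by
        rw [add_zero]
        exact h2)
    refine GMP.mono ?_ h3
    rw [add_zero]
    exact Multiset.map_le_map (Multiset.singleton_le.2 hm)

/-- Exactness if the dimensions of the hyperplane sections grow slowly. -/
theorem exactS {n : ℕ} {M : ℕ} (hM : 1 ≤ M) (A : Fam (n + 1)) (d E C : ℕ)
    (hE : EV (n + 1) M ≤ E) (hC : CU (n + 1) M ≤ C)
    (hslow : E * (A.h d - A.h (d - 1)) ≤
      E * (A.h (d - C) - A.h (d - C - 1)) + (A.h d - A.h (d - 1)))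
    (G : Multiset ℕ) (hG : ∀ m ∈ G, m ≤ M)
    (hsum : A.h d ≤ (G.map (ell (n + 2))).sum) : Fk (A.W d) G := by
  have hell : 1 ≤ ell (n + 1) M := ell_pos (n + 1) hM
  have hEV : 16 ≤ EV (n + 1) M := by
    unfold EV
    have h1 : 8 * 1 * 2 * 1 ≤ 8 * M * (M + 1) * ell (n + 1) M :=
      Nat.mul_le_mul (Nat.mul_le_mul (Nat.mul_le_mul_left _ hM) (by omega)) hell
    omega
  have hCU : 1 ≤ CU (n + 1) M := by
    unfold CU qU
    have h1 : 1 ≤ 4 * M * ell (n + 1) M := Nat.mul_pos (by omega) hell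
    have h2 : 1 * 1 ≤ 11 * M * (2 * M ^ 2 * ell (n + 1 + 1) M + 4 * M * ell (n + 1) M) :=
      Nat.mul_le_mul (by omega) (by omega)
    omega
  by_cases h0 : A.h d - A.h (d - 1) = 0
  · have hle : A.h d ≤ 1 := by
      rcases Nat.eq_zero_or_pos d with rfl | hd
      · exact A.h_zero_le
      · by_contra hcon
        have h1 : 1 ≤ A.h (d - 1) := by omega
        have h2 := fam_strict A (d - 1) h1
        rw [Nat.sub_add_cancel hd] at h2
        omega
    exact fk_of_le_one (A.W d) hle G hsum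
  · -- `τ (d - C) ≥ 1`
    have h1 : 1 ≤ A.h (d - C) - A.h (d - C - 1) := by
      by_contra hcon
      have h2 : A.h (d - C) - A.h (d - C - 1) = 0 := by omega
      rw [h2, mul_zero, zero_add] at hslow
      have h3 : 2 * (A.h d - A.h (d - 1)) ≤ E * (A.h d - A.h (d - 1)) :=
        Nat.mul_le_mul_right _ (by omega)
      omega
    have hdC : 1 ≤ d - C := by
      by_contra hcon
      have h2 : d - C = 0 := by omega
      rw [h2, Nat.zero_sub] at h1
      omega
    have h2 := tau_grow A (d - C) hdC (by omega) C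
    have h3 : d - C + C = d := by omega
    rw [h3] at h2
    -- the section is large
    have h4 : E * C ≤ A.h d - A.h (d - 1) := by
      have h5 : E * (A.h (d - C) - A.h (d - C - 1) + C) ≤ E * (A.h d - A.h (d - 1)) :=
        Nat.mul_le_mul_left _ h2
      rw [Nat.mul_add] at h5
      omega
    have h5 : TU (n + 1) M ≤ A.h d - A.h (d - 1) := by
      refine le_trans ?_ h4
      refine le_trans ?_ (Nat.mul_le_mul hE hC)
      unfold TU EV CU qU
      have h6 : ell (n + 1) M ≤ 11 * M * (2 * M ^ 2 * ell (n + 1 + 1) M + 4 * M * ell (n + 1) M) := by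
        have h7 : 1 * (1 * ell (n + 1) M) ≤
            11 * M * (2 * M ^ 2 * ell (n + 1 + 1) M + 4 * M * ell (n + 1) M) :=
          Nat.mul_le_mul (by omega) (le_trans (Nat.mul_le_mul_right _ (by omega))
            (Nat.le_add_left _ _))
        omega
      calc 8 * M * (M + 1) * ell (n + 1) M ^ 2 =
          8 * M * (M + 1) * ell (n + 1) M * ell (n + 1) M := by ring
        _ ≤ _ := Nat.mul_le_mul_left _ h6
    refine exactV hM A d (by omega) h5 ?_ G hG hsum
    -- slow growth
    have h6 := VSys_diff_mono A (show d - C ≤ d - CU (n + 1) M + 1 by omega)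
    rw [Nat.add_sub_cancel] at h6
    have h7 := VSys_diff_mono A (show d - C ≤ d by omega)
    set t := A.h d - A.h (d - 1)
    set u := A.h (d - C) - A.h (d - C - 1)
    set u' := A.h (d - CU (n + 1) M + 1) - A.h (d - CU (n + 1) M)
    obtain ⟨s, hs⟩ := Nat.exists_eq_add_of_le h7
    have h8 : E * s ≤ t := by
      have h9 : E * (u + s) ≤ E * u + t := by
        rw [← hs]
        exact hslow
      rw [Nat.mul_add] at h9
      omega
    have h9 : EV (n + 1) M * s ≤ t := (Nat.mul_le_mul_right _ hE).trans h8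
    refine le_trans ?_ (Nat.mul_le_mul_left _ h6)
    obtain ⟨e, he⟩ : ∃ e, EV (n + 1) M = e + 1 := ⟨EV (n + 1) M - 1, by omega⟩
    rw [he] at h9 ⊢
    rw [Nat.add_sub_cancel]
    have h10 : (e + 1) * (u + s) ≤ (e + 1) * u + t := by
      rw [Nat.mul_add]
      omega
    rw [← hs] at h10
    have h11 : (e + 1) * t = e * t + t := by ring
    omega

end Pool.Agent.H18.Ub
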