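import Pool.Agent.H18.Ub.VFinal

/-!
# Module VGen (UB): general points
-/

namespace Pool.Agent.H18.Ub

open Finset Pool.Agent.H18.Ex Pool.Agent.H18.Cub Pool.Agent.H18.Pr Pool.Agent.H18.Ua
  Pool.Agent.H18.Fat

/-- From exactness to general points. -/
theorem general_of_exactV {n k : ℕ} (P : Fin k → Fin (n + 1) → ℂ) (m : Fin k → ℕ)
    (J : Finset (Fin k)) {M : ℕ} (hM : 1 ≤ M) (hJ : ∀ i, i ∉ J → m i ≤ M) (d : ℕ)
    (h : ∀ G : Multiset ℕ, (∀ μ ∈ G, μ ≤ M) →
      (fatFam P fun i => if i ∈ J then m i else 0).h d ≤ (G.map (ell (n + 1))).sum →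
      Fk ((fatFam P fun i => if i ∈ J then m i else 0).W d) G) (v : ℕ)
    (hv : ((fatFam P fun i => if i ∈ J then m i else 0).h d : ℤ) ≤
      v + ∑ i ∈ univ.filter (fun i => i ∉ J), ((m i + (n + 1) - 1).choose (n + 1) : ℤ)) :
    ∃ p₀ : Fin k → Fin (n + 1 + 1) → ℂ, (∀ i, p₀ i 0 = 1) ∧
      Module.finrank ℂ (fatForms (n + 1) d p₀ m) ≤ v := by
  classical
  apply special_of_fatFam P m J d v
  apply h
  · intro μ hμ
    obtain ⟨x, _, rfl⟩ := Multiset.mem_map.1 hμ
    rcases x with i | j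
    · exact hJ i.1 i.2
    · exact hM
  · rw [Multiset.map_map]
    change _ ≤ ∑ x : {i : Fin k // i ∉ J} ⊕ Fin v,
      (ell (n + 1) ∘ Sum.elim (fun i : {i : Fin k // i ∉ J} => m i.1) fun _ => 1) x
    rw [Fintype.sum_sum_type]
    have h1 : ∑ j : Fin v, (ell (n + 1) ∘ Sum.elim (fun i : {i : Fin k // i ∉ J} => m i.1)
        fun _ => 1) (Sum.inr j) = v := by
      simp [ell_one]
    have h2 : ∑ i : {i : Fin k // i ∉ J}, (ell (n + 1) ∘ Sum.elim
        (fun i : {i : Fin k // i ∉ J} => m i.1) fun _ : Fin v => 1) (Sum.inl i) =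
        ∑ i ∈ univ.filter (fun i => i ∉ J), ell (n + 1) (m i) := by
      rw [sum_subtype (p := fun i => i ∉ J) (univ.filter fun i => i ∉ J) (by simp)
        (fun i => ell (n + 1) (m i))]
      rfl
    have h9 : ∑ i ∈ univ.filter (fun i => i ∉ J), ((m i + (n + 1) - 1).choose (n + 1) : ℤ) =
        ((∑ i ∈ univ.filter (fun i => i ∉ J), ell (n + 1) (m i) : ℕ) : ℤ) := by
      push_cast
      rfl
    rw [h1, h2]
    rw [h9] at hv
    omega

/-- The points outside `J` impose at most their lengths many conditions. -/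
theorem finrank_ge_add {r d k : ℕ} (hr : 1 ≤ r) {p : Fin k → Fin (r + 1) → ℂ}
    (hp : ∀ i, p i 0 ≠ 0) (m : Fin k → ℕ) (J : Finset (Fin k)) :
    (Module.finrank ℂ (fatForms r d p fun i => if i ∈ J then m i else 0) : ℤ) -
      ∑ i ∈ univ.filter (fun i => i ∉ J), ((m i + r - 1).choose r : ℤ) ≤
      Module.finrank ℂ (fatForms r d p m) := by
  classical
  set A := fatForms r d p fun i => if i ∈ J then m i else 0 with hA
  set B := fatForms r d p fun i => if i ∈ J then 0 else m i with hB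
  set V := MvPolynomial.homogeneousSubmodule (Fin (r + 1)) ℂ d with hV
  have hAV : A ≤ V := fun F hF => hF.1
  have hBV : B ≤ V := fun F hF => hF.1
  have hAB : A ⊓ B ≤ fatForms r d p m := by
    rintro F ⟨h1, h2⟩
    refine ⟨h1.1, fun i => ?_⟩
    by_cases hi : i ∈ J
    · have := h1.2 i
      simpa only [if_pos hi] using this
    · have := h2.2 i
      simpa only [if_neg hi] using this
  have h0 : fatForms r d p (fun _ : Fin k => 0) = V := by
    ext F
    constructor
    · exact fun h => h.1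
    · exact fun h => ⟨h, fun i β hβ => absurd hβ (Nat.not_lt_zero _)⟩
  have hVr : Module.finrank ℂ V = (d + r).choose r := by
    have h1 := rank_add_finrank (d := d) hp fun _ : Fin k => 0
    have h2 := finrank_range_le d hr p fun _ : Fin k => 0
    have h3 : ∑ i : Fin k, ((fun _ : Fin k => 0) i + r - 1).choose r = 0 := by
      apply sum_eq_zero
      intro i _
      exact Nat.choose_eq_zero_of_lt (show 0 + r - 1 < r by omega)
    rw [h3] at h2
    rw [h0] at h1
    omega
  have : FiniteDimensional ℂ V := by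
    rcases Nat.eq_zero_or_pos (Module.finrank ℂ V) with h | h
    · rw [hVr] at h
      have := Nat.choose_pos (show r ≤ d + r by omega)
      omega
    · exact Module.finite_of_finrank_pos h
  have : FiniteDimensional ℂ A := Submodule.finiteDimensional_of_le hAV
  have : FiniteDimensional ℂ B := Submodule.finiteDimensional_of_le hBV
  have : FiniteDimensional ℂ (fatForms r d p m) :=
    Submodule.finiteDimensional_of_le (S₂ := V) fun F hF => hF.1
  have h1 := Submodule.finrank_sup_add_finrank_inf_eq A B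
  have h2 : Module.finrank ℂ (A ⊔ B : Submodule ℂ (MvPolynomial (Fin (r + 1)) ℂ)) ≤
      (d + r).choose r := by
    rw [← hVr]
    exact Submodule.finrank_mono (sup_le hAV hBV)
  have h3 : Module.finrank ℂ (A ⊓ B : Submodule ℂ (MvPolynomial (Fin (r + 1)) ℂ)) ≤
      Module.finrank ℂ (fatForms r d p m) := Submodule.finrank_mono hAB
  have h4 := finrank_fatForms_ge (d := d) hr hp fun i => if i ∈ J then 0 else m i
  have h5 : ∑ i, (((fun i => if i ∈ J then 0 else m i) i + r - 1).choose r : ℤ) =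
      ∑ i ∈ univ.filter (fun i => i ∉ J), ((m i + r - 1).choose r : ℤ) := by
    rw [sum_filter]
    refine sum_congr rfl fun i _ => ?_
    by_cases hi : i ∈ J
    · simp only [not_true_eq_false, if_false, hi, if_true]
      rw [Nat.choose_eq_zero_of_lt (show 0 + r - 1 < r by omega)]
      rfl
    · simp only [not_false_eq_true, if_true, hi, if_false]
  rw [h5] at h4
  rw [← hB] at h4
  omega

/-- General points exist for finitely many conditions. -/
theorem general_all {r k : ℕ} {P : ℕ → (Fin k → Fin (r + 1) → ℂ) → Prop} (s : Finset ℕ)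
    (h : ∀ j ∈ s, ForGeneralPoints r k (P j)) :
    ForGeneralPoints r k fun p => ∀ j ∈ s, P j p := by
  classical
  induction s using Finset.induction_on with
  | empty => exact ⟨1, one_ne_zero, fun p _ j hj => absurd hj (notMem_empty j)⟩
  | insert a s ha ih =>
    refine ((h a (mem_insert_self a s)).and (ih fun j hj => h j (mem_insert_of_mem hj))).mono
      fun p hp j hj => ?_
    rcases mem_insert.1 hj with rfl | hj
    · exact hp.1
    · exact hp.2 j hj


theorem ell_le_succ (n : ℕ) (M : ℕ) : ell n M ≤ ell (n + 1) M + 0 ∨ M = 0 := by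
  rcases Nat.eq_zero_or_pos M with h | h
  · exact Or.inr h
  · left
    have h1 := ell_succ n (M - 1)
    rw [Nat.sub_add_cancel h] at h1
    omega

/-- The constants. -/
theorem consts_le (n : ℕ) {M : ℕ} (hM : 1 ≤ M) :
    EV (n + 1) M ≤ 16 * M ^ 2 * ell (n + 2) M ∧ CU (n + 1) M ≤ 66 * M ^ 3 * ell (n + 2) M := by
  have hB : ell (n + 1) M ≤ ell (n + 2) M := by
    have := (ell_le_succ (n + 1) M).resolve_right (by omega)
    exact this
  constructor
  · unfold EV
    calc 8 * M * (M + 1) * ell (n + 1) M ≤ 8 * M * (2 * M) * ell (n + 2) M :=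
          Nat.mul_le_mul (Nat.mul_le_mul_left _ (by omega)) hB
      _ = 16 * M ^ 2 * ell (n + 2) M := by ring
  · unfold CU qU
    have h1 : M ≤ M ^ 2 := Nat.le_self_pow (by norm_num) M
    have h2 : 4 * M * ell (n + 1) M ≤ 4 * M ^ 2 * ell (n + 2) M :=
      Nat.mul_le_mul (Nat.mul_le_mul_left _ h1) hB
    calc 11 * M * (2 * M ^ 2 * ell (n + 1 + 1) M + 4 * M * ell (n + 1) M) ≤
          11 * M * (2 * M ^ 2 * ell (n + 2) M + 4 * M ^ 2 * ell (n + 2) M) :=
          Nat.mul_le_mul_left _ (Nat.add_le_add_left h2 _)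
      _ = 66 * M ^ 3 * ell (n + 2) M := by ring

/-- The general dimension is determined by the large part if the dimensions of its hyperplane
sections grow slowly. -/
theorem general_dim (r : ℕ) (hr : 2 ≤ r) (M : ℕ) (hM : 1 ≤ M) (k d : ℕ) (m : Fin k → ℕ)
    (J : Finset (Fin k)) (hJ : ∀ i, i ∉ J → m i ≤ M) (h : ℕ → ℕ)
    (hh : ∀ j ≤ d, ForGeneralPoints r k fun p =>
      Module.finrank ℂ (fatForms r j p fun i => if i ∈ J then m i else 0) = h j)
    (E C : ℕ) (hE : 16 * M ^ 2 * (M + r - 1).choose r ≤ E)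
    (hC : 66 * M ^ 3 * (M + r - 1).choose r ≤ C)
    (hslow : E * (h d - h (d - 1)) ≤ E * (h (d - C) - h (d - C - 1)) + (h d - h (d - 1))) :
    ForGeneralPoints r k fun p => (Module.finrank ℂ (fatForms r d p m) : ℤ) =
      max 0 ((h d : ℤ) - ∑ i ∈ univ.filter (fun i => i ∉ J), ((m i + r - 1).choose r : ℤ)) := by
  classical
  obtain ⟨n, rfl⟩ : ∃ n, r = n + 2 := ⟨r - 2, by omega⟩
  have hgen := (general_all (range (d + 1)) fun j hj => hh j (by
    have := mem_range.1 hj
    omega)).and (general_ne_zero (n + 2) k)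
  obtain ⟨p, hp, hp0⟩ := exists_of_general hgen
  set P : Fin k → Fin (n + 1 + 1) → ℂ := fun i j => p i j.succ / p i 0 with hP
  set A := fatFam P fun i => if i ∈ J then m i else 0 with hA
  have hAh : ∀ j ≤ d, A.h j = h j := by
    intro j hj
    rw [hA, fatFam_h, ← hp j (mem_range.2 (by omega))]
    exact finrank_normalise p hp0 _
  obtain ⟨hc1, hc2⟩ := consts_le n hM
  have hex : ∀ G : Multiset ℕ, (∀ μ ∈ G, μ ≤ M) → A.h d ≤ (G.map (ell (n + 1 + 1))).sum →
      Fk (A.W d) G := by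
    intro G hG hsum
    refine exactS hM A d E C (hc1.trans hE) (hc2.trans hC) ?_ G hG hsum
    rw [hAh d le_rfl, hAh _ (by omega), hAh _ (by omega), hAh _ (by omega)]
    exact hslow
  set X : ℤ := (h d : ℤ) -
    ∑ i ∈ univ.filter (fun i => i ∉ J), ((m i + (n + 2) - 1).choose (n + 2) : ℤ) with hX
  obtain ⟨v, hv⟩ : ∃ v : ℕ, (v : ℤ) = max 0 X :=
    ⟨(max 0 X).toNat, Int.toNat_of_nonneg (le_max_left _ _)⟩
  obtain ⟨p₀, hp₀1, hp₀2⟩ := general_of_exactV P m J hM hJ d hex v (by
    rw [← hA, hAh d le_rfl, hv]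
    have h1 := le_max_right 0 X
    rw [hX] at h1
    rw [hX]
    change (h d : ℤ) ≤ max 0 ((h d : ℤ) -
      ∑ i ∈ univ.filter (fun i => i ∉ J), ((m i + (n + 2) - 1).choose (n + 2) : ℤ)) +
      ∑ i ∈ univ.filter (fun i => i ∉ J), ((m i + (n + 2) - 1).choose (n + 2) : ℤ)
    omega)
  refine (((general_finrank_le d p₀ m).and (hh d le_rfl)).and (general_ne_zero (n + 2) k)).mono
    fun q hq => ?_
  obtain ⟨⟨hq1, hq2⟩, hq3⟩ := hq
  have h6 := finrank_ge_add (d := d) (by omega : 1 ≤ n + 2) hq3 m J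
  rw [hq2] at h6
  rw [← hv]
  have h7 : (v : ℤ) ≤ Module.finrank ℂ (fatForms (n + 2) d q m) := by
    rw [hv]
    exact max_le (Int.natCast_nonneg _) h6
  have h8 : Module.finrank ℂ (fatForms (n + 2) d q m) ≤ v := hq1.trans hp₀2
  omega

/-- The same after a Cremona reduction, and the failing tuples. -/
theorem slow_growth (r : ℕ) (hr : 2 ≤ r) (M : ℕ) (hM : 1 ≤ M) (k d d' : ℕ) (m m' : Fin k → ℕ)
    (hcr : Cremona r d m d' m') (J : Finset (Fin k)) (hJ : ∀ i, i ∉ J → m' i ≤ M) (h : ℕ → ℕ)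
    (hh : ∀ j ≤ d', ForGeneralPoints r k fun p =>
      Module.finrank ℂ (fatForms r j p fun i => if i ∈ J then m' i else 0) = h j)
    (E C : ℕ) (hE : 16 * M ^ 2 * (M + r - 1).choose r ≤ E)
    (hC : 66 * M ^ 3 * (M + r - 1).choose r ≤ C)
    (hslow : E * (h d' - h (d' - 1)) ≤
      E * (h (d' - C) - h (d' - C - 1)) + (h d' - h (d' - 1))) :
    ForGeneralPoints r k fun p =>
      (Module.finrank ℂ (fatForms r d p m) : ℤ) =
        max 0 ((h d' : ℤ) -
          ∑ i ∈ univ.filter (fun i => i ∉ J), ((m' i + r - 1).choose r : ℤ)) ∧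
      (¬ ImposesMaximalConditions r d p m ↔
        0 < (h d' : ℤ) - ∑ i ∈ univ.filter (fun i => i ∉ J), ((m' i + r - 1).choose r : ℤ) ∧
        ((d + r).choose r : ℤ) - ∑ i, ((m i + r - 1).choose r : ℤ) <
          (h d' : ℤ) - ∑ i ∈ univ.filter (fun i => i ∉ J), ((m' i + r - 1).choose r : ℤ)) := by
  have h' := general_dim r hr M hM k d' m' J hJ h hh E C hE hC hslow
  set v' : ℤ := (h d' : ℤ) -
    ∑ i ∈ univ.filter (fun i => i ∉ J), ((m' i + r - 1).choose r : ℤ) with hv'
  obtain ⟨v, hv⟩ : ∃ v : ℕ, (v : ℤ) = max 0 v' :=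
    ⟨(max 0 v').toNat, Int.toNat_of_nonneg (le_max_left _ _)⟩
  have h3 : ForGeneralPoints r k fun p => Module.finrank ℂ (fatForms r d' p m') = v := by
    refine h'.mono fun p hp => ?_
    have h4 : ((Module.finrank ℂ (fatForms r d' p m') : ℕ) : ℤ) = v := by
      rw [hp, hv]
    exact_mod_cast h4
  have h5 := (hcr.general v).2 h3
  refine (h5.and (general_ne_zero r k)).mono fun p hp => ?_
  obtain ⟨hp, hp0⟩ := hp
  have hge := finrank_fatForms_ge (d := d) (by omega : 1 ≤ r) hp0 m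
  have h7 : (Module.finrank ℂ (fatForms r d p m) : ℤ) = max 0 v' := by
    rw [hp, hv]
  refine ⟨h7, ?_⟩
  rw [h7] at hge
  have h8 : ImposesMaximalConditions r d p m ↔ (Module.finrank ℂ (fatForms r d p m) : ℤ) =
      max 0 (((d + r).choose r : ℤ) - ∑ i, ((m i + r - 1).choose r : ℤ)) := Iff.rfl
  rw [h8, h7]
  generalize ((d + r).choose r : ℤ) - ∑ i, ((m i + r - 1).choose r : ℤ) = v₀ at hge ⊢
  rcases le_total 0 v' with h9 | h9 <;> rcases le_total 0 v₀ with h10 | h10
  · rw [max_eq_right h9] at hge ⊢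
    rw [max_eq_right h10]
    omega
  · rw [max_eq_right h9] at hge ⊢
    rw [max_eq_left h10]
    omega
  · rw [max_eq_left h9] at hge ⊢
    rw [max_eq_right h10]
    omega
  · rw [max_eq_left h9] at hge ⊢
    rw [max_eq_left h10]
    omega

end Pool.Agent.H18.Ub
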