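import Pool.Agent.H18.Ub.VDefs
import Pool.Agent.H18.Ua.UKill

/-!
# Module VTrace (UB): the traces are killed with enough simple points
-/

namespace Pool.Agent.H18.Ub

open Finset Pool.Agent.H18.Ex Pool.Agent.H18.Cub Pool.Agent.H18.Pr Pool.Agent.H18.Ua

/-! ### Restriction to `x_0 = 0` -/

section

variable {n : ℕ}

/-- Substitute `x_0 = 0`. -/
noncomputable def vtr_psi (n : ℕ) :
    MvPolynomial (Fin (n + 1)) ℂ →ₐ[ℂ] MvPolynomial (Fin n) ℂ :=
  MvPolynomial.aeval (Fin.cons 0 MvPolynomial.X : Fin (n + 1) → MvPolynomial (Fin n) ℂ)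

theorem vtr_psi_coeff (G : MvPolynomial (Fin (n + 1)) ℂ) (β : Fin n → ℕ) :
    (vtr_psi n G).coeff (Finsupp.equivFunOnFinite.symm β) =
      G.coeff (Finsupp.equivFunOnFinite.symm (Fin.cons 0 β)) := by
  induction G using MvPolynomial.induction_on' with
  | monomial a c =>
    unfold vtr_psi
    rw [MvPolynomial.aeval_monomial, MvPolynomial.algebraMap_eq, MvPolynomial.coeff_C_mul,
      Finsupp.prod_fintype _ _ (by intro i; simp), Fin.prod_univ_succ, Fin.cons_zero,
      MvPolynomial.coeff_monomial]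
    simp only [Fin.cons_succ]
    by_cases ha : a 0 = 0
    · rw [ha, pow_zero, one_mul]
      have h1 : (∏ j : Fin n, (MvPolynomial.X j : MvPolynomial (Fin n) ℂ) ^ a j.succ) =
          MvPolynomial.monomial (Finsupp.equivFunOnFinite.symm fun j => a j.succ) 1 := by
        rw [MvPolynomial.monomial_eq, MvPolynomial.C_1, one_mul,
          Finsupp.prod_fintype _ _ (by intro i; simp)]
        rfl
      rw [h1, MvPolynomial.coeff_monomial]
      by_cases h2 : (fun j : Fin n => a j.succ) = β
      · have h3 : a = Finsupp.equivFunOnFinite.symm (Fin.cons 0 β) := by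
          ext j
          refine Fin.cases ?_ (fun j => ?_) j
          · simpa using ha
          · simpa using congrFun h2 j
        rw [if_pos (by rw [h2]), if_pos h3, mul_one]
      · have h3 : ¬ a = Finsupp.equivFunOnFinite.symm (Fin.cons 0 β) := by
          intro h3
          apply h2
          funext j
          rw [h3]
          simp
        rw [if_neg (fun h4 => h2 (Finsupp.equivFunOnFinite.symm.injective h4)), if_neg h3,
          mul_zero]
    · have h3 : ¬ a = Finsupp.equivFunOnFinite.symm (Fin.cons 0 β) := by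
        intro h3
        apply ha
        rw [h3]
        simp
      rw [zero_pow ha, zero_mul, MvPolynomial.coeff_zero, mul_zero, if_neg h3]
  | add P Q hP hQ => rw [map_add, MvPolynomial.coeff_add, hP, hQ, MvPolynomial.coeff_add]

theorem vtr_psi_tay (F : MvPolynomial (Fin (n + 1)) ℂ) (q : Fin n → ℂ) (β : Fin n → ℕ) :
    tay (vtr_psi n F) q β = tay F (Fin.cons 0 q) (Fin.cons 0 β) := by
  have h : (trl q).comp (vtr_psi n) = (vtr_psi n).comp (trl (Fin.cons 0 q : Fin (n + 1) → ℂ)) := by
    apply MvPolynomial.algHom_ext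
    intro i
    refine Fin.cases ?_ (fun i => ?_) i
    · simp [vtr_psi, trl]
    · simp [vtr_psi, trl]
  rw [tay, tay, ← vtr_psi_coeff, ← AlgHom.comp_apply, h]
  rfl

theorem vtr_psi_zero (F : MvPolynomial (Fin (n + 1)) ℂ) (h0 : F.degreeOf 0 = 0)
    (h : vtr_psi n F = 0) : F = 0 := by
  ext a
  rw [MvPolynomial.coeff_zero]
  by_cases ha : a 0 = 0
  · have h1 : a = Finsupp.equivFunOnFinite.symm (Fin.cons 0 (fun j : Fin n => a j.succ)) := by
      ext j
      refine Fin.cases ?_ (fun j => ?_) j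
      · simpa using ha
      · simp
    rw [h1, ← vtr_psi_coeff, h, MvPolynomial.coeff_zero]
  · by_contra hc
    apply ha
    have h2 : a 0 ≤ F.degreeOf 0 := MvPolynomial.monomial_le_degreeOf 0
      (MvPolynomial.mem_support_iff.2 hc)
    omega

theorem vtr_psi_deg (F : MvPolynomial (Fin (n + 1)) ℂ) :
    (vtr_psi n F).totalDegree ≤ F.totalDegree := by
  rw [MvPolynomial.totalDegree]
  refine Finset.sup_le fun b hb => ?_
  have h1 : b = Finsupp.equivFunOnFinite.symm ⇑b := by
    ext j; simp
  rw [h1, MvPolynomial.mem_support_iff, vtr_psi_coeff, ← MvPolynomial.mem_support_iff] at hb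
  have h2 := MvPolynomial.le_totalDegree hb
  refine le_trans (le_of_eq ?_) h2
  rw [Finsupp.sum_fintype _ _ (fun _ => rfl), Finsupp.sum_fintype _ _ (fun _ => rfl),
    Fin.sum_univ_succ]
  simp

/-- Transfer of the free points. -/
theorem vtr_transfer (U : Submodule ℂ (MvPolynomial (Fin (n + 1)) ℂ))
    (U' : Submodule ℂ (MvPolynomial (Fin n) ℂ)) (h0 : ∀ F ∈ U, F.degreeOf 0 = 0)
    (hU : ∀ F ∈ U, vtr_psi n F ∈ U') {S : Multiset ℕ} (h : Fk U' S) : Fk U S := by
  obtain ⟨k, s, hs, pos, hpos⟩ := h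
  refine ⟨k, s, hs, fun i => Fin.cons 0 (pos i), fun F hF hv => ?_⟩
  refine vtr_psi_zero F (h0 F hF) (hpos _ (hU F hF) fun i β hβ => ?_)
  rw [vtr_psi_tay]
  refine hv i _ ?_
  rw [Fin.sum_univ_succ, Fin.cons_zero, zero_add]
  simpa using hβ

end

theorem vtr_trace_degreeOf {n : ℕ} (A : Fam n) (δ : ℕ) (v : ℂ)
    (F : MvPolynomial (Fin (n + 1)) ℂ) (hF : F ∈ (A.W δ).map (sub1 0 v).toLinearMap) :
    F.degreeOf 0 = 0 := by
  obtain ⟨G, -, rfl⟩ := hF
  rw [← Nat.le_zero, MvPolynomial.degreeOf_le_iff]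
  intro a ha
  by_contra hc
  have hi : (0 : Fin (n + 1)) ∈ (sub1 0 v G).vars :=
    (MvPolynomial.mem_vars_iff_mem_support _).2 ⟨a, ha, Finsupp.mem_support_iff.2 fun h => hc (by omega)⟩
  have h1 : sub1 0 v G = MvPolynomial.bind₁ (Function.update
    (MvPolynomial.X : Fin (n + 1) → MvPolynomial (Fin (n + 1)) ℂ) 0 (MvPolynomial.C v)) G := rfl
  rw [h1] at hi
  have h2 := MvPolynomial.vars_bind₁ _ _ hi
  rw [mem_biUnion] at h2
  obtain ⟨k, hk, hik⟩ := h2
  by_cases hkj : k = 0
  · subst hkj
    rw [Function.update_self, MvPolynomial.vars_C] at hik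
    exact absurd hik (notMem_empty _)
  · rw [Function.update_of_ne hkj, MvPolynomial.vars_X, mem_singleton] at hik
    exact hkj hik.symm

theorem vtr_sub1_deg {n : ℕ} (v : ℂ) (F : MvPolynomial (Fin (n + 1)) ℂ) :
    (sub1 0 v F).totalDegree ≤ F.totalDegree := by
  have hf : ∀ i, (Function.update (MvPolynomial.X : Fin (n + 1) → MvPolynomial (Fin (n + 1)) ℂ) 0
      (MvPolynomial.C v) i).totalDegree ≤ 1 := by
    intro i
    by_cases hi : i = 0
    · subst hi
      rw [Function.update_self, MvPolynomial.totalDegree_C]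
      omega
    · rw [Function.update_of_ne hi, MvPolynomial.totalDegree_X]
  unfold sub1
  rw [MvPolynomial.aeval_def, MvPolynomial.eval₂_eq']
  refine (MvPolynomial.totalDegree_finsetSum _ _).trans (Finset.sup_le fun a ha => ?_)
  refine (MvPolynomial.totalDegree_mul _ _).trans ?_
  rw [MvPolynomial.algebraMap_eq, MvPolynomial.totalDegree_C, zero_add]
  refine (MvPolynomial.totalDegree_finsetProd _ _).trans ?_
  refine le_trans ?_ (MvPolynomial.le_totalDegree ha)
  rw [Finsupp.sum_fintype _ _ (fun _ => rfl)]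
  refine sum_le_sum fun i _ => ?_
  refine (MvPolynomial.totalDegree_pow _ _).trans ?_
  calc a i * _ ≤ a i * 1 := Nat.mul_le_mul_left _ (hf i)
    _ = a i := mul_one _


/-! ### Families closed under multiplication -/

/-- A family of spaces of polynomials closed under multiplication. -/
structure PFam (n : ℕ) : Type where
  /-- the spaces -/
  W : ℕ → Submodule ℂ (MvPolynomial (Fin (n + 1)) ℂ)
  deg : ∀ δ, ∀ F ∈ W δ, F.totalDegree ≤ δ
  mul : ∀ δ j, ∀ F ∈ W δ, ∀ Q : MvPolynomial (Fin (n + 1)) ℂ, Q.totalDegree ≤ j →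
    Q * F ∈ W (δ + j)

variable {n : ℕ} {Λ : Type}

/-- The dimensions. -/
noncomputable def PFam.h (A : PFam n) (δ : ℕ) : ℕ := Module.finrank ℂ (A.W δ)

instance PFam.finite (A : PFam n) (δ : ℕ) : FiniteDimensional ℂ (A.W δ) := by
  have h : A.W δ ≤ MvPolynomial.restrictTotalDegree (Fin (n + 1)) ℂ δ := fun F hF =>
    (MvPolynomial.mem_restrictTotalDegree _ _ _).2 (A.deg δ F hF)
  exact Module.Finite.of_injective (Submodule.inclusion h) (Submodule.inclusion_injective h)

theorem PFam.mono (A : PFam n) {δ δ' : ℕ} (hδ : δ ≤ δ') : A.W δ ≤ A.W δ' := by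
  intro F hF
  have h1 := A.mul δ (δ' - δ) F hF 1 (by rw [MvPolynomial.totalDegree_one]; omega)
  rw [one_mul, Nat.add_sub_cancel' hδ] at h1
  exact h1

theorem PFam.h_mono' (A : PFam n) {δ δ' : ℕ} (hδ : δ ≤ δ') : A.h δ ≤ A.h δ' :=
  Submodule.finrank_mono (A.mono hδ)

open UKillX

/-- If the conditions `S` do not kill `W δ` then one more free point of multiplicity `m` imposes
`ell (n + 1) m` conditions on the elements of `W (δ + (m - 1))` satisfying `S`: choose positions with
`finrank (kerP (W (δ + (m - 1))) …) ≤ x` and a nonzero `G ∈ W δ` satisfying `S` there, a point `p` with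
`G(p) ≠ 0`; the products `Q * G` with `deg Q ≤ m - 1` form a subspace of dimension `ell (n + 1) m` meeting
the subspace of the elements vanishing to order `m` at `p` in `0` only (`satP_of_mul`,
`eq_zero_of_vanish`). -/
theorem pkill_step (A : PFam n) (g : Lines Λ (Fin (n + 1))) (δ m x : ℕ) (hm : 1 ≤ m)
    (S : Multiset (Kind Λ)) (hS : ¬ GMP g (A.W δ) S)
    (h : GMP g (A.W (δ + (m - 1))) (S + Multiset.replicate x (Kind.free 1))) :
    ell (n + 1) m ≤ x ∧ GMP g (A.W (δ + (m - 1)))
      (S + {Kind.free m} + Multiset.replicate (x - ell (n + 1) m) (Kind.free 1)) := by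
  obtain ⟨N, k, rfl⟩ := multi_exists_fin S
  obtain ⟨pos, hpos⟩ := exists_pos_finrank g (A.W (δ + (m - 1))) k x h
  rw [GMP_iff] at hS
  have h1 : ¬ InjP g (A.W δ) k pos := fun hI => hS ⟨pos, hI⟩
  unfold InjP at h1
  push Not at h1
  obtain ⟨G, hGW, hGs, hG0⟩ := h1
  obtain ⟨p, hp⟩ : ∃ p : Fin (n + 1) → ℂ, MvPolynomial.eval p G ≠ 0 := by
    by_contra hcon
    push Not at hcon
    exact hG0 (MvPolynomial.funext fun v => by rw [hcon v, map_zero])
  let V := kerP g (A.W (δ + (m - 1))) k pos
  let k' : Fin N ⊕ Unit → Kind Λ := Sum.elim k fun _ => Kind.free m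
  let pos' : Fin N ⊕ Unit → Fin (n + 1) → ℂ := Sum.elim pos fun _ => p
  let U := kerP g (A.W (δ + (m - 1))) k' pos'
  let P := (MvPolynomial.restrictTotalDegree (Fin (n + 1)) ℂ (m - 1)).map (LinearMap.mulLeft ℂ G)
  have hfV : FiniteDimensional ℂ V := Submodule.finiteDimensional_of_le kerP_le
  have hPV : P ≤ V := by
    rintro _ ⟨Q, hQ, rfl⟩
    rw [SetLike.mem_coe, MvPolynomial.mem_restrictTotalDegree] at hQ
    rw [LinearMap.mulLeft_apply, mul_comm]
    exact mem_kerP.2 ⟨A.mul δ (m - 1) G hGW Q hQ, fun i => satP_mul g Q G (k i) (pos i) (hGs i)⟩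
  have hUV : U ≤ V := by
    intro F hF
    rw [mem_kerP] at hF
    exact mem_kerP.2 ⟨hF.1, fun i => hF.2 (Sum.inl i)⟩
  have hPU : P ⊓ U = ⊥ := by
    rw [eq_bot_iff]
    rintro F ⟨⟨Q, hQ, rfl⟩, hF⟩
    rw [SetLike.mem_coe, MvPolynomial.mem_restrictTotalDegree] at hQ
    rw [LinearMap.mulLeft_apply] at hF ⊢
    have h2 : SatP g (G * Q) (Kind.free m) p := (mem_kerP.1 hF).2 (Sum.inr ())
    have h3 := satP_of_mul g G Q (Kind.free m) p hp h2
    have h4 : Q = 0 := eq_zero_of_vanish Q p m (by omega) fun b hb => h3 b hb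
    rw [h4, mul_zero]
    exact Submodule.zero_mem _
  have h5 := finrank_add_le P U V hPV hUV hPU
  have h6 : Module.finrank ℂ P = ell (n + 1) m := by
    rw [finrank_mul G hG0, finrank_totalDegree n m hm]
  rw [h6] at h5
  have h7 : Module.finrank ℂ V ≤ x := hpos
  refine ⟨by omega, ?_⟩
  have h8 := gmp_of_pos g (A.W (δ + (m - 1))) k' (x - ell (n + 1) m) pos' (by
    change Module.finrank ℂ U ≤ _
    omega)
  rw [multi_map_sum] at h8
  exact h8

/-- If the conditions `S` kill `W δ` then the elements of `W (δ + i)` satisfying `S` form a space of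
dimension at most `h (δ + i) - h δ`: it meets `(X 0 - C v) ^ i * W δ` in `0` only, for general `v`. -/
theorem pkill_dim (A : PFam n) (g : Lines Λ (Fin (n + 1))) (δ i x : ℕ) (S : Multiset (Kind Λ))
    (hS : GMP g (A.W δ) S) (hx : A.h (δ + i) ≤ A.h δ + x) :
    GMP g (A.W (δ + i)) (S + Multiset.replicate x (Kind.free 1)) := by
  obtain ⟨N, k, rfl⟩ := multi_exists_fin S
  rw [GMP_iff] at hS
  obtain ⟨pos, hpos⟩ := hS
  obtain ⟨v, hv⟩ : ∃ v : ℂ, v ∉ (univ : Finset (Fin N)).image fun j => g.pt (k j) (pos j) 0 :=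
    Infinite.exists_notMem_finset _
  let L : MvPolynomial (Fin (n + 1)) ℂ := (MvPolynomial.X 0 - MvPolynomial.C v) ^ i
  have hev : ∀ j, MvPolynomial.eval (g.pt (k j) (pos j)) L ≠ 0 := by
    intro j
    simp only [L, map_pow, map_sub, MvPolynomial.eval_X, MvPolynomial.eval_C]
    refine pow_ne_zero _ (sub_ne_zero.2 ?_)
    intro hcon
    exact hv (mem_image.2 ⟨j, mem_univ _, hcon⟩)
  have hL0 : L ≠ 0 := by
    refine pow_ne_zero _ ?_
    intro hcon
    have := congrArg (MvPolynomial.eval fun _ => v + 1) hcon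
    simp at this
  have hLd : L.totalDegree ≤ i := by
    refine (MvPolynomial.totalDegree_pow _ _).trans ?_
    have : (MvPolynomial.X (0 : Fin (n + 1)) - MvPolynomial.C v :
        MvPolynomial (Fin (n + 1)) ℂ).totalDegree ≤ 1 := by
      refine (MvPolynomial.totalDegree_sub _ _).trans ?_
      simp
    calc i * _ ≤ i * 1 := Nat.mul_le_mul_left _ this
      _ = i := mul_one i
  let V := kerP g (A.W (δ + i)) k pos
  let P := (A.W δ).map (LinearMap.mulLeft ℂ L)
  have hPW : P ≤ A.W (δ + i) := by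
    rintro _ ⟨F, hF, rfl⟩
    rw [LinearMap.mulLeft_apply]
    exact A.mul δ i F hF L hLd
  have hPV : P ⊓ V = ⊥ := by
    rw [eq_bot_iff]
    rintro _ ⟨⟨F, hF, rfl⟩, hV⟩
    rw [LinearMap.mulLeft_apply] at hV ⊢
    have h3 : F = 0 := hpos F hF fun j =>
      satP_of_mul g L F (k j) (pos j) (hev j) ((mem_kerP.1 hV).2 j)
    rw [h3, mul_zero]
    exact Submodule.zero_mem _
  have h5 := finrank_add_le P V (A.W (δ + i)) hPW kerP_le hPV
  have h6 : Module.finrank ℂ P = A.h δ := finrank_mul L hL0 _
  rw [h6] at h5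
  refine gmp_of_pos g (A.W (δ + i)) k x pos ?_
  change Module.finrank ℂ V ≤ x
  change A.h δ + Module.finrank ℂ V ≤ A.h (δ + i) at h5
  omega

/-- Many points.  Induction on `G`: if `W (d - (m - 1))` is not killed use `kill_step`; otherwise the
dimension is at most `T` by `kill_dim`, and there are at least `T` points left. -/
theorem pkill_all (A : PFam n) (g : Lines Λ (Fin (n + 1))) (d M T : ℕ) (hM : 1 ≤ M)
    (hd : M - 1 ≤ d) (hT : A.h d ≤ A.h (d - (M - 1)) + T) (G : Multiset ℕ)
    (hG : ∀ m ∈ G, 1 ≤ m ∧ m ≤ M) : ∀ (S : Multiset (Kind Λ)) (x s : ℕ),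
    GMP g (A.W d) (S + Multiset.replicate x (Kind.free 1)) →
    x ≤ (G.map (ell (n + 1))).sum + s →
    (T ≤ s ∨ x + ell (n + 1) M * T ≤ (G.map (ell (n + 1))).sum + s) →
    GMP g (A.W d) (S + G.map Kind.free + Multiset.replicate s (Kind.free 1)) := by
  induction G using Multiset.induction_on with
  | empty =>
    intro S x s h hx _
    rw [Multiset.map_zero, Multiset.sum_zero, zero_add] at hx
    rw [Multiset.map_zero, add_zero]
    exact GMP.mono (add_le_add_right (Multiset.replicate_le_replicate _ |>.2 hx) _) h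
  | cons m G ih =>
    intro S x s h hx hor
    have hm := hG m (Multiset.mem_cons_self m G)
    have hG' : ∀ m' ∈ G, 1 ≤ m' ∧ m' ≤ M := fun m' hm' => hG m' (Multiset.mem_cons_of_mem hm')
    rw [Multiset.map_cons, Multiset.sum_cons] at hx hor
    have hdd : d - (m - 1) + (m - 1) = d := by omega
    by_cases hk : GMP g (A.W (d - (m - 1))) S
    · -- the conditions `S` kill the smaller space
      have h1 : A.h (d - (m - 1) + (m - 1)) ≤ A.h (d - (m - 1)) + T := by
        rw [hdd]
        have := A.h_mono' (show d - (M - 1) ≤ d - (m - 1) by omega)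
        omega
      have h2 := pkill_dim A g (d - (m - 1)) (m - 1) T S hk h1
      rw [hdd] at h2
      have hTs : T ≤ (m ::ₘ G).card + s := by
        rcases hor with hor | hor
        · omega
        · have h3 : ((m ::ₘ G).map (ell (n + 1))).sum ≤ (m ::ₘ G).card * ell (n + 1) M := by
            have := Multiset.sum_le_card_nsmul ((m ::ₘ G).map (ell (n + 1))) (ell (n + 1) M) (by
              intro y hy
              obtain ⟨m', hm', rfl⟩ := Multiset.mem_map.1 hy
              exact ell_mono (n + 1) (hG m' hm').2)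
            rw [Multiset.card_map, smul_eq_mul] at this
            exact this
          rw [Multiset.map_cons, Multiset.sum_cons] at h3
          have h4 : 1 ≤ ell (n + 1) M := ell_pos (n + 1) hM
          have h5 : ell (n + 1) M * T ≤ ell (n + 1) M * ((m ::ₘ G).card + s) := by
            calc ell (n + 1) M * T ≤ (ell (n + 1) m + (G.map (ell (n + 1))).sum) + s := by omega
              _ ≤ (m ::ₘ G).card * ell (n + 1) M + ell (n + 1) M * s :=
                  add_le_add h3 (Nat.le_mul_of_pos_left s h4)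
              _ = ell (n + 1) M * ((m ::ₘ G).card + s) := by ring
          exact Nat.le_of_mul_le_mul_left h5 h4
      have h6 : GMP g (A.W d) (Multiset.replicate (m ::ₘ G).card (Kind.free 1) +
          (S + Multiset.replicate s (Kind.free 1))) := by
        refine GMP.mono ?_ h2
        have h7 : Multiset.replicate T (Kind.free 1 : Kind Λ) ≤
            Multiset.replicate ((m ::ₘ G).card + s) (Kind.free 1) :=
          (Multiset.replicate_le_replicate _).2 hTs
        rw [Multiset.replicate_add] at h7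
        calc S + Multiset.replicate T (Kind.free 1 : Kind Λ) ≤
            S + (Multiset.replicate (m ::ₘ G).card (Kind.free 1) +
              Multiset.replicate s (Kind.free 1)) := by
              exact Multiset.add_le_add_left h7
          _ = Multiset.replicate (m ::ₘ G).card (Kind.free 1) +
            (S + Multiset.replicate s (Kind.free 1)) := by
              rw [← add_assoc, add_comm S, add_assoc]
      have h8 := GMP.free_mono (m ::ₘ G) (fun m' hm' => (hG m' hm').1) _ h6
      rw [← add_assoc, add_comm ((m ::ₘ G).map Kind.free) S] at h8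
      exact h8
    · have h0 : GMP g (A.W (d - (m - 1) + (m - 1))) (S + Multiset.replicate x (Kind.free 1)) := by
        rw [hdd]
        exact h
      obtain ⟨h1, h2⟩ := pkill_step A g (d - (m - 1)) m x hm.1 S hk h0
      rw [hdd] at h2
      have h3 := ih hG' (S + {Kind.free m}) (x - ell (n + 1) m) s h2 (by omega) (by omega)
      rw [Multiset.map_cons, ← Multiset.singleton_add, ← add_assoc]
      exact h3


/-! ### The traces -/

/-- The traces of a family on `x_0 = v`. -/
noncomputable def traceP (A : Fam (n + 1)) (v : ℂ) : PFam n where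
  W := fun δ => (A.W δ).map ((vtr_psi (n + 1)).comp (sub1 0 v)).toLinearMap
  deg := by
    rintro δ _ ⟨F, hF, rfl⟩
    exact (vtr_psi_deg _).trans ((vtr_sub1_deg v F).trans (A.deg δ F hF))
  mul := by
    rintro δ j _ ⟨F, hF, rfl⟩ Q hQ
    refine ⟨MvPolynomial.rename Fin.succ Q * F, A.mul δ j F hF _
      ((MvPolynomial.totalDegree_rename_le _ _).trans hQ), ?_⟩
    have h1 : ((vtr_psi (n + 1)).comp (sub1 0 v)).comp (MvPolynomial.rename Fin.succ) =
        AlgHom.id ℂ (MvPolynomial (Fin (n + 1)) ℂ) := by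
      apply MvPolynomial.algHom_ext
      intro i
      simp [vtr_psi, sub1, Function.update_of_ne (Fin.succ_ne_zero i)]
    have h2 := DFunLike.congr_fun h1 Q
    change ((vtr_psi (n + 1)).comp (sub1 0 v)) (MvPolynomial.rename Fin.succ Q * F) =
      Q * ((vtr_psi (n + 1)).comp (sub1 0 v)) F
    rw [map_mul]
    congr 1

theorem traceP_h (A : Fam (n + 1)) (v : ℂ) (hv : v ∉ A.bad) (δ : ℕ) (hδ : 1 ≤ δ) :
    (traceP A v).h δ + A.h (δ - 1) = A.h δ := by
  rw [← A.finrank_trace δ hδ v hv]
  congr 1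
  have h1 : (traceP A v).W δ =
      ((A.W δ).map (sub1 0 v).toLinearMap).map (vtr_psi (n + 1)).toLinearMap := by
    change (A.W δ).map ((vtr_psi (n + 1)).comp (sub1 0 v)).toLinearMap = _
    rw [← Submodule.map_comp]
    rfl
  unfold PFam.h
  rw [h1]
  let f : ((A.W δ).map (sub1 0 v).toLinearMap : Submodule ℂ (MvPolynomial (Fin (n + 2)) ℂ)) →ₗ[ℂ]
      MvPolynomial (Fin (n + 1)) ℂ :=
    (vtr_psi (n + 1)).toLinearMap.domRestrict _
  have hf : Function.Injective f := by
    rw [← LinearMap.ker_eq_bot, LinearMap.ker_eq_bot']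
    rintro ⟨F, hF⟩ h2
    apply Subtype.ext
    exact vtr_psi_zero F (vtr_trace_degreeOf A δ v F hF) h2
  have h2 := LinearMap.finrank_range_of_inj hf
  have h3 : LinearMap.range f =
      ((A.W δ).map (sub1 0 v).toLinearMap).map (vtr_psi (n + 1)).toLinearMap :=
    LinearMap.range_domRestrict _ _
  rw [h3] at h2
  exact h2

/-- Points of multiplicities at most `M` and `x` simple points kill the trace if `x` is at least the
growth of the traces in `M - 1` degrees. -/
theorem trace_kill (A : Fam (n + 1)) (M δ : ℕ) (hM : 1 ≤ M) (hδ : M ≤ δ) (v : ℂ)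
    (hv : v ∉ A.bad) (S : Multiset ℕ) (hS : ∀ m ∈ S, m ≤ M) (x : ℕ)
    (hx : A.h δ - A.h (δ - 1) ≤ A.h (δ - (M - 1)) - A.h (δ - (M - 1) - 1) + x)
    (hsum : A.h δ ≤ A.h (δ - 1) + ((S.map (ell (n + 1))).sum + x)) :
    Fk ((A.W δ).map (sub1 0 v).toLinearMap) (S + Multiset.replicate x 1) := by
  classical
  set T := traceP A v with hT
  have h1 := traceP_h A v hv δ (by omega)
  have h2 := traceP_h A v hv (δ - (M - 1)) (by omega)
  rw [← hT] at h1 h2
  have g : Lines Empty (Fin (n + 1)) := ⟨Empty.elim, Empty.elim⟩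
  -- remove the points of multiplicity `0`
  set S' := S.filter fun m => 1 ≤ m with hS'
  have hsum' : (S'.map (ell (n + 1))).sum = (S.map (ell (n + 1))).sum := by
    rw [hS']
    clear hsum hS hS'
    induction S using Multiset.induction_on with
    | empty => rfl
    | cons m S ih =>
      by_cases hm : 1 ≤ m
      · rw [Multiset.filter_cons_of_pos _ hm, Multiset.map_cons, Multiset.map_cons,
          Multiset.sum_cons, Multiset.sum_cons, ih]
      · rw [Multiset.filter_cons_of_neg _ hm, Multiset.map_cons, Multiset.sum_cons, ih]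
        have h0 : m = 0 := by omega
        rw [h0, ell_zero (by omega), zero_add]
  have h3 := pkill_all T g δ M x hM (by omega) (by omega) S'
    (fun m hm => ⟨(Multiset.mem_filter.1 hm).2, hS m (Multiset.mem_filter.1 hm).1⟩)
    0 (T.h δ) x (by
      rw [zero_add]
      exact gmp_simple g (T.W δ) (T.h δ) le_rfl) (by omega) (Or.inl le_rfl)
  rw [zero_add] at h3
  have h4 : Fk (T.W δ) (S' + Multiset.replicate x 1) := by
    rw [Fk_iff g, Multiset.map_add, Multiset.map_replicate]
    exact h3
  have h5 : Fk (T.W δ) (S + Multiset.replicate x 1) :=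
    Fk.mono (add_le_add_left (Multiset.filter_le _ _) _) h4
  refine vtr_transfer _ (T.W δ) (vtr_trace_degreeOf A δ v) ?_ h5
  rintro F ⟨G, hG, rfl⟩
  exact ⟨G, hG, rfl⟩

end Pool.Agent.H18.Ub
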