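import Pool.Agent.H18.Ub.VNumb
import Pool.Agent.H18.Ub.VTrace
import Pool.Agent.H18.Ua.USys

/-!
# Module VSys (UB): the Horace system of a family
-/

namespace Pool.Agent.H18.Ub

open Finset Pool.Agent.H18.Ex Pool.Agent.H18.Cub Pool.Agent.H18.Pr Pool.Agent.H18.Ua

variable {n q : ℕ}

/-- The differences increase. -/
theorem VSys_diff_mono (A : Fam n) {δ d : ℕ} (hδ : δ ≤ d) :
    A.h δ - A.h (δ - 1) ≤ A.h d - A.h (d - 1) := by
  induction d, hδ using Nat.le_induction with
  | base => exact le_refl _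
  | succ d _ ih =>
    refine ih.trans ?_
    rw [Nat.add_sub_cancel]
    rcases Nat.eq_zero_or_pos d with rfl | hd
    · simp
    · have h1 := A.t_mono d hd
      omega

private theorem VSys_up (A : Fam n) {δ d : ℕ} (hδ : δ ≤ d) (k : ℕ) :
    A.h δ ≤ A.h (δ - k) + k * (A.h d - A.h (d - 1)) := by
  induction k with
  | zero => simp
  | succ k ih =>
    have h1 := VSys_diff_mono A (show δ - k ≤ d by omega)
    rw [Nat.sub_sub] at h1
    rw [add_mul, one_mul]
    omega

private theorem VSys_low (A : Fam n) (M C d : ℕ) (hM : 1 ≤ M) (hC : C ≤ d)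
    (hslow : ∀ i < C, (EV n M - 1) * (A.h d - A.h (d - 1)) ≤
      EV n M * (A.h (d - i) - A.h (d - i - 1))) {δ : ℕ} (hδ : δ ≤ d) (k : ℕ)
    (hk : d - δ + k ≤ C) :
    2 * A.h (δ - k) + k * (A.h d - A.h (d - 1)) ≤ 2 * A.h δ := by
  induction k with
  | zero => simp
  | succ k ih =>
    have h1 := ih (by omega)
    have h2 := hslow (d - δ + k) (by omega)
    have h3 : d - (d - δ + k) = δ - k := by omega
    rw [h3, Nat.sub_sub] at h2
    have h4 : A.h d - A.h (d - 1) ≤ 2 * (A.h (δ - k) - A.h (δ - (k + 1))) := by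
      have h5 := F_ge_half (n := n) hM h2
      omega
    have h8 : A.h (δ - (k + 1)) ≤ A.h (δ - k) := A.h_mono' (by omega)
    rw [add_mul, one_mul]
    omega

private theorem VSys_q_pos (n M : ℕ) (hM : 1 ≤ M) : 1 ≤ qU n M := by
  unfold qU
  have h1 : 1 ≤ ell n M := by
    unfold ell
    exact Nat.choose_pos (by omega)
  have h2 : 1 * 1 ≤ 4 * M * ell n M := Nat.mul_le_mul (by omega) h1
  omega

/-- The degree of a state `a` with `RegU M N a`. -/
private theorem VSys_reg (M : ℕ) (N a : Fin q → ℕ) (h : RegU M N a) :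
    ∑ l, a l ≤ ∑ l, N l ∧ ∑ l, N l ≤ ∑ l, a l + q * (2 * M + 1) := by
  constructor
  · exact sum_le_sum fun l _ => (h l).1
  · have h1 : ∑ l, N l ≤ ∑ l, (a l + (2 * M + 1)) := sum_le_sum fun l _ => (h l).2
    rw [sum_add_distrib, sum_const, card_univ, Fintype.card_fin, smul_eq_mul] at h1
    exact h1

/-- The numerical properties. -/
theorem sysV_num {n : ℕ} (A : Fam (n + 1)) (M : ℕ) (v : Fin (qU (n + 1) M) → ℂ)
    (hv : Function.Injective v) (hb : ∀ l, v l ∉ A.bad) (hM : 1 ≤ M) (d : ℕ)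
    (hd : CU (n + 1) M ≤ d) (hbig : TU (n + 1) M ≤ A.h d - A.h (d - 1))
    (hslow : ∀ i < CU (n + 1) M, (EV (n + 1) M - 1) * (A.h d - A.h (d - 1)) ≤
      EV (n + 1) M * (A.h (d - i) - A.h (d - i - 1)))
    (N : Fin (qU (n + 1) M) → ℕ) (hN : ∑ l, N l = d) (hN' : ∀ l, 2 * M + 2 ≤ N l) :
    NumV (sysU A v hv hb) M (A.h d - A.h (d - 1))
      ((A.h d - A.h (d - 1)) / EV (n + 1) M) N := by
  have hq := VSys_q_pos (n + 1) M hM
  have hMq : M ≤ M * qU (n + 1) M := Nat.le_mul_of_pos_right M hq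
  have hqM : qU (n + 1) M ≤ M * qU (n + 1) M := Nat.le_mul_of_pos_left (qU (n + 1) M) hM
  have hCU : CU (n + 1) M = 11 * (M * qU (n + 1) M) := by unfold CU; ring
  have h21 : qU (n + 1) M * (2 * M + 1) = 2 * (M * qU (n + 1) M) + qU (n + 1) M := by ring
  have ht : 1 ≤ A.h d - A.h (d - 1) := by
    refine le_trans ?_ hbig
    unfold TU
    have h1 : 1 ≤ ell (n + 1) M := by
      unfold ell
      exact Nat.choose_pos (by omega)
    have h2 : 1 ≤ ell (n + 1) M ^ 2 := Nat.one_le_pow _ _ h1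
    have h3 : 1 * 1 ≤ 8 * M * (M + 1) := Nat.mul_le_mul (by omega) (by omega)
    have h4 : (1 * 1) * 1 ≤ 8 * M * (M + 1) * ell (n + 1) M ^ 2 := Nat.mul_le_mul h3 h2
    omega
  have hEpos : 1 ≤ EV (n + 1) M := by
    unfold EV
    have h1 := ell_pos (n + 1) hM
    have h3 : 1 * 1 ≤ 8 * M * (M + 1) := Nat.mul_le_mul (by omega) (by omega)
    have h4 : (1 * 1) * 1 ≤ 8 * M * (M + 1) * ell (n + 1) M := Nat.mul_le_mul h3 h1
    omega
  -- the degree of a regular state
  have hdeg : ∀ a, RegU M N a → ∑ l, a l ≤ d ∧ d ≤ ∑ l, a l + 2 * (M * qU (n + 1) M) +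
      qU (n + 1) M := by
    intro a ha
    have h1 := VSys_reg M N a ha
    rw [hN, h21] at h1
    omega
  have hne : ∀ a, RegU M N a → A.h (∑ l, a l - 1) ≠ 0 := by
    intro a ha h0
    have h1 := hdeg a ha
    have h2 := VSys_low A M (CU (n + 1) M) d hM hd hslow (δ := ∑ l, a l - 1) (by omega) 1
      (by omega)
    omega
  refine ⟨by omega, hM, hbig, Nat.mul_div_le _ _, Fintype.card_fin _, hN', ?_, ?_, ?_, ?_,
    fun a _ => sysU_full A v hv hb a, ?_⟩
  · -- `Fle`
    intro a l ha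
    change (if A.h (∑ l, a l - 1) = 0 then 0 else A.h (∑ l, a l) - A.h (∑ l, a l - 1)) ≤ _
    rw [if_neg (hne a ha)]
    exact VSys_diff_mono A (hdeg a ha).1
  · -- `leF`
    intro a l ha
    change _ ≤ EV (n + 1) M *
      (if A.h (∑ l, a l - 1) = 0 then 0 else A.h (∑ l, a l) - A.h (∑ l, a l - 1))
    rw [if_neg (hne a ha)]
    have h1 := hdeg a ha
    have h2 := hslow (d - ∑ l, a l) (by omega)
    have h3 : d - (d - ∑ l, a l) = ∑ l, a l := by omega
    rw [h3] at h2
    exact h2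
  · -- `gd`
    intro a l ha S hS x hx hF
    change (if A.h (∑ l, a l - 1) = 0 then 0 else A.h (∑ l, a l) - A.h (∑ l, a l - 1)) ≤ _ at hF
    rw [if_neg (hne a ha)] at hF
    change GMP (gU (n + 1) v) (trW (gU (n + 1) v) l (A.W (∑ l, a l)))
      ((S + Multiset.replicate x 1).map Kind.free)
    have h1 := hdeg a ha
    set δ := ∑ l, a l with hδ
    have h2 := hslow (d - (δ - (M - 1))) (by omega)
    have h3 : d - (d - (δ - (M - 1))) = δ - (M - 1) := by omega
    rw [h3] at h2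
    have h4 := VSys_diff_mono A h1.1
    have h5 : A.h δ - A.h (δ - 1) ≤ A.h (δ - (M - 1)) - A.h (δ - (M - 1) - 1) + x := by
      refine h4.trans ?_
      refine le_trans ?_ (Nat.add_le_add_left hx _)
      generalize A.h (δ - (M - 1)) - A.h (δ - (M - 1) - 1) = u at h2
      generalize A.h d - A.h (d - 1) = t at h2
      -- `(E - 1) t ≤ E u` gives `t - u ≤ t / E`
      rw [← Nat.sub_le_iff_le_add', Nat.le_div_iff_mul_le hEpos]
      obtain ⟨e, he⟩ : ∃ e, EV (n + 1) M = e + 1 := ⟨EV (n + 1) M - 1, by omega⟩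
      rw [he] at h2 ⊢
      rw [Nat.add_sub_cancel] at h2
      rw [Nat.sub_mul, Nat.sub_le_iff_le_add]
      calc t * (e + 1) = e * t + t := by ring
        _ ≤ (e + 1) * u + t := Nat.add_le_add_right h2 _
        _ = t + u * (e + 1) := by ring
    have h6 := trace_kill A M δ hM (by omega) (v l) (hb l) S hS x h5 (by omega)
    exact (Fk_iff (gU (n + 1) v) _ _).1 h6
  · -- `leR`
    intro a ha
    change _ ≤ if A.h (∑ l, a l) = 0 then 1 else (A.h (∑ l, a l) : ℤ)
    have h1 := hdeg a ha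
    have h2 := VSys_low A M (CU (n + 1) M) d hM hd hslow (δ := ∑ l, a l) h1.1
      (8 * (M * qU (n + 1) M)) (by omega)
    have h3 : 4 * M * qU (n + 1) M * (A.h d - A.h (d - 1)) ≤ A.h (∑ l, a l) := by
      have h4 : 8 * (M * qU (n + 1) M) * (A.h d - A.h (d - 1)) =
          2 * (4 * M * qU (n + 1) M * (A.h d - A.h (d - 1))) := by ring
      omega
    have h5 : A.h (∑ l, a l) ≠ 0 := by
      have h6 : 1 ≤ 4 * M * qU (n + 1) M * (A.h d - A.h (d - 1)) := by
        have h7 : 1 * 1 ≤ 4 * M * qU (n + 1) M := Nat.mul_le_mul (by omega) hq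
        have h8 : (1 * 1) * 1 ≤ 4 * M * qU (n + 1) M * (A.h d - A.h (d - 1)) :=
          Nat.mul_le_mul h7 ht
        omega
      omega
    rw [if_neg h5]
    exact_mod_cast h3
  · -- `kill`
    intro a ha S x s G hG hK hx hs
    have h1 := hdeg a ha
    refine kill_all A (gU (n + 1) v) (∑ l, a l) M (M * (A.h d - A.h (d - 1))) hM (by omega) ?_ G hG
      S x s hK hx hs
    refine (VSys_up A h1.1 (M - 1)).trans (Nat.add_le_add_left ?_ _)
    exact Nat.mul_le_mul_right _ (by omega)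

end Pool.Agent.H18.Ub
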